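import Pool.Agent.T2H62.WinG

/-!
# Isolated windows with the full sieve pattern in all short intervals

Let `m ≥ 0`, `k ≥ 1` and let the places be the `h_m(k)` integers `h` in `[1, k]` such that `m + h` has no prime factor
`≤ k`. Every interval of length `X ^ ε` contains the right order of magnitude of windows `(x, x + k]` with `x ≡ m` modulo
the product of the primes `≤ k` such that all the `x + h` at places `h` are products of a bounded number of large primes
and all the other integers at distance at most `L` from the window have a small prime factor. Almost all of these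
windows are covered by disjoint monochromatic narrow progressions of such windows.
-/

set_option autoImplicit false

namespace Pool.Agent.Results.MP_cbf366_nt.ShortSieveWindows

open Finset Filter
open Pool.Agent.T2H62.TU

/-- the `h` in `[1, k]` such that no prime `p ≤ k` divides `m + h`; `h_m(k)` is their number -/
noncomputable def Places (m k : ℕ) : Finset ℕ := by
  classical
  exact (Icc 1 k).filter (fun h => ∀ p : ℕ, p.Prime → p ≤ k → ¬ p ∣ m + h)

/-- `v > 1` is a product of at most `r` primes, all of them larger than `y` -/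
def AlmostPrime (r : ℕ) (y : ℝ) (v : ℕ) : Prop :=
  1 < v ∧ v.primeFactorsList.length ≤ r ∧ ∀ q : ℕ, q.Prime → q ∣ v → y < q

/-- every integer in `(x - L, x + k + L]` other than the `x + h`, `h` a place, has a prime factor `≤ C` -/
def Isolated (m k L C x : ℕ) : Prop :=
  ∀ d : ℤ, -(L : ℤ) < d → d ≤ k + L → (∀ h ∈ Places m k, d ≠ h) → ∃ q : ℕ, q.Prime ∧ q ≤ C ∧ (q : ℤ) ∣ (x : ℤ) + d

open Classical in
/-- the `n` in `(A, B]` such that, for `x = n ∏_{p ≤ k} p + m`, all the `x + h`, `h` a place, are products of at most `t`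
primes `> X ^ (1/t)`, and the window is isolated -/
noncomputable def Windows (m k L C t X A B : ℕ) : Finset ℕ :=
  (Ioc A B).filter (fun n : ℕ => (∀ h ∈ Places m k, AlmostPrime t ((X : ℝ) ^ (1 / (t : ℝ))) (primorial k * n + m + h)) ∧
    Isolated m k L C (primorial k * n + m))

/-- the terms `a, a + d, ..., a + (s - 1) d` of the progression `z = (a, d)` -/
def terms (s : ℕ) (z : ℕ × ℕ) : Finset ℕ := (range s).image (fun i => z.1 + i * z.2)

theorem places_eq (m k : ℕ) : Places m k = Pool.Agent.T2H62.WI.places m k := by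
  classical
  unfold Places Pool.Agent.T2H62.WI.places
  apply filter_congr
  intro h _
  constructor
  · intro H
    rw [Nat.coprime_comm]
    apply Nat.Coprime.symm
    apply Nat.coprime_of_dvd
    intro p hp hp1 hp2
    exact H p hp ((hp.dvd_primorial_iff).1 hp2) hp1
  · intro H p hp hpk hd
    have h2 : p ∣ primorial k := (hp.dvd_primorial_iff).2 hpk
    have h3 := Nat.dvd_gcd hd h2
    rw [Nat.coprime_iff_gcd_eq_one.1 H] at h3
    exact hp.one_lt.ne' (Nat.dvd_one.1 h3)

theorem result (m k L : ℕ) (hne : (Places m k).Nonempty) (ε : ℝ) (hε : 0 < ε) :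
    ∃ C t : ℕ, 1 ≤ t ∧ ∃ κ K : ℝ, 0 < κ ∧ 0 < K ∧
    (∀ (s r : ℕ) (δ : ℝ), 1 ≤ s → 0 < δ → ∃ b X₀ : ℕ, ∀ X : ℕ, X₀ ≤ X →
      ∀ A B : ℕ, B ≤ X → (X : ℝ) ^ ε ≤ (B : ℝ) - A →
        κ * ((B : ℝ) - A) / Real.log X ^ (Places m k).card ≤ ((Windows m k L C t X A B).card : ℝ) ∧
        ((Windows m k L C t X A B).card : ℝ) ≤ K * ((B : ℝ) - A) / Real.log X ^ (Places m k).card ∧
        ∀ χ : ℕ → Fin r, ∃ P : Finset (ℕ × ℕ),
          (∀ z ∈ P, 1 ≤ z.2 ∧ (z.2 : ℝ) ≤ Real.log X ^ b ∧
            ∀ l < s, z.1 + l * z.2 ∈ Windows m k L C t X A B ∧ χ (z.1 + l * z.2) = χ z.1) ∧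
          (P : Set (ℕ × ℕ)).PairwiseDisjoint (terms s) ∧
          (((Windows m k L C t X A B \ P.biUnion (terms s)).card : ℕ) : ℝ) ≤
            δ * ((B : ℝ) - A) / Real.log X ^ (Places m k).card) ∧
    -- beyond `C`, the primes at distance less than `L` from such a window are at its places
    ∀ X A B n : ℕ, n ∈ Windows m k L C t X A B → C < primorial k * n → L ≤ m →
      ∀ q : ℕ, q.Prime → primorial k * n + m < q + L → q ≤ primorial k * n + m + k + L →
        ∃ h ∈ Places m k, q = primorial k * n + m + h := by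
  classical
  obtain ⟨Q, hQd⟩ : ∃ Q, Q = primorial k := ⟨_, rfl⟩
  have hQ : 1 ≤ Q := by rw [hQd]; exact primorial_pos k
  obtain ⟨T, hT⟩ : ∃ T : Finset ℤ, T = Pool.Agent.T2H62.WI.offs m k := ⟨_, rfl⟩
  have hTc : T.card = (Places m k).card := by
    rw [hT, Pool.Agent.T2H62.WI.offs_card, places_eq]
  have hadm : AdmT Q T := by
    rw [hQd, hT]
    exact Pool.Agent.T2H62.WI.adm_offs m k
  have hmem : ∀ d : ℤ, d ∈ T ↔ ∃ h ∈ Places m k, d = (m : ℤ) + h := by
    intro d
    rw [hT, places_eq]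
    unfold Pool.Agent.T2H62.WI.offs
    rw [mem_image]
    constructor
    · rintro ⟨h, h1, h2⟩
      exact ⟨h, h1, by rw [← h2]; push_cast; ring⟩
    · rintro ⟨h, h1, h2⟩
      exact ⟨h, h1, by rw [h2]; push_cast; ring⟩
  obtain ⟨W, hW⟩ : ∃ W : Finset ℤ, W = (Ioc ((m : ℤ) - L) (m + k + L)).filter (fun d : ℤ => d ∉ T) := ⟨_, rfl⟩
  have hTW : ∀ w ∈ W, w ∉ T := by
    intro w hw
    rw [hW, mem_filter] at hw
    exact hw.2
  have hT0 : T.Nonempty := by
    obtain ⟨h, hh⟩ := hne
    exact ⟨_, (hmem _).2 ⟨h, hh, rfl⟩⟩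
  obtain ⟨C, t, ht, κ, K, hκ, hK, H⟩ := short Q hQ hadm hT0 hTW ε hε
  rw [hTc] at H
  have hal : ∀ (r : ℕ) (y : ℝ) (v : ℕ), Pool.Agent.X32.Uni.Almost r y (v : ℤ) ↔ AlmostPrime r y v := by
    intro r y v
    unfold Pool.Agent.X32.Uni.Almost AlmostPrime
    rw [Nat.abs_cast, Int.natAbs_natCast]
    constructor
    · rintro ⟨h1, h2, h3⟩
      exact ⟨by exact_mod_cast h1, h2, fun q hq hd => h3 q hq (Int.natCast_dvd_natCast.2 hd)⟩
    · rintro ⟨h1, h2, h3⟩
      exact ⟨by exact_mod_cast h1, h2, fun q hq hd => h3 q hq (Int.natCast_dvd_natCast.1 hd)⟩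
  have hc : ∀ n h : ℕ, (Q : ℤ) * n + ((m : ℤ) + h) = ((primorial k * n + m + h : ℕ) : ℤ) := by
    intro n h
    rw [hQd]
    push_cast
    ring
  have heq : ∀ X A B : ℕ, GN Q T W C t X A B = Windows m k L C t X A B := by
    intro X A B
    unfold GN Windows
    apply filter_congr
    intro n _
    have h1 : (∀ h ∈ T, Pool.Agent.X32.Uni.Almost t ((X : ℝ) ^ (1 / (t : ℝ))) ((Q : ℤ) * n + h)) ↔
        ∀ h ∈ Places m k, AlmostPrime t ((X : ℝ) ^ (1 / (t : ℝ))) (primorial k * n + m + h) := by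
      constructor
      · intro h2 h hh
        have h3 := h2 ((m : ℤ) + h) ((hmem _).2 ⟨h, hh, rfl⟩)
        rwa [hc, hal] at h3
      · intro h2 d hd
        obtain ⟨h, hh, rfl⟩ := (hmem d).1 hd
        rw [hc, hal]
        exact h2 h hh
    have h2 : (∀ w ∈ W, ∃ q : ℕ, q.Prime ∧ q ≤ C ∧ (q : ℤ) ∣ (Q : ℤ) * n + w) ↔
        Isolated m k L C (primorial k * n + m) := by
      unfold Isolated
      constructor
      · intro h d h3 h4 h5
        obtain ⟨q, hq, hqC, hqd⟩ := h ((m : ℤ) + d) (by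
          rw [hW, mem_filter, mem_Ioc]
          refine ⟨⟨by linarith, by linarith⟩, fun h6 => ?_⟩
          obtain ⟨g, hg, hg2⟩ := (hmem _).1 h6
          exact h5 g hg (by linarith))
        refine ⟨q, hq, hqC, ?_⟩
        have h7 : (Q : ℤ) * n + ((m : ℤ) + d) = ((primorial k * n + m : ℕ) : ℤ) + d := by
          rw [hQd]
          push_cast
          ring
        rwa [h7] at hqd
      · intro h w hw
        rw [hW, mem_filter, mem_Ioc] at hw
        obtain ⟨q, hq, hqC, hqd⟩ := h (w - m) (by linarith [hw.1.1]) (by linarith [hw.1.2]) (by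
          intro g hg hg2
          exact hw.2 ((hmem _).2 ⟨g, hg, by linarith⟩))
        refine ⟨q, hq, hqC, ?_⟩
        have h7 : ((primorial k * n + m : ℕ) : ℤ) + (w - m) = (Q : ℤ) * n + w := by
          rw [hQd]
          push_cast
          ring
        rwa [h7] at hqd
    rw [h1, h2]
  simp only [heq] at H
  refine ⟨C, t, ht, κ, K, hκ, hK, H, fun X A B n hn hCn hLm q hq h1 h2 => ?_⟩
  unfold Windows at hn
  rw [mem_filter] at hn
  obtain ⟨_, _, hiso⟩ := hn
  by_contra hcon
  push Not at hcon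
  obtain ⟨l, hl, hlC, hld⟩ := hiso ((q : ℤ) - ((primorial k * n + m : ℕ) : ℤ)) (by
    have h3 : ((primorial k * n + m : ℕ) : ℤ) < (q : ℤ) + L := by exact_mod_cast h1
    linarith) (by
    have h3 : (q : ℤ) ≤ ((primorial k * n + m : ℕ) : ℤ) + k + L := by exact_mod_cast h2
    linarith) (by
    intro h hh he
    apply hcon h hh
    have h3 : (q : ℤ) = ((primorial k * n + m + h : ℕ) : ℤ) := by push_cast at he ⊢; linarith
    exact_mod_cast h3)
  have h3 : (l : ℤ) ∣ (q : ℤ) := by
    rwa [show ((primorial k * n + m : ℕ) : ℤ) + ((q : ℤ) - ((primorial k * n + m : ℕ) : ℤ)) = q by ring] at hld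
  have h4 : l ∣ q := by exact_mod_cast h3
  have h5 := (Nat.prime_dvd_prime_iff_eq hl hq).1 h4
  omega

end Pool.Agent.Results.MP_cbf366_nt.ShortSieveWindows
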