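import Mathlib
import Pool.Agent.T2H62.MD.D

set_option autoImplicit false

/-! # The conjecture of Hardy and Littlewood on windows holds for sieved random primes

Random primes: every integer `n` without a prime factor `p ≤ A log n` is chosen with probability
`∏_{p ≤ A log n} (1 - 1/p)⁻¹ / log n` (at most `1`), the other integers are not chosen, and the choices are independent
(`A = 1`: Granville's modification of Cramer's model). Almost surely, the question has a positive answer for the set `R`
of the random primes: for every `k` the largest number of elements of `R` in infinitely many windows `(x, x + k]` is the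
maximum of the sieve counts `h_m(k)`. More precisely, for all `k`, `m` and `ε > 0`, if `N` is large, every interval
`(N, N + N ^ ε]` contains an `x ≡ m` modulo all primes `≤ k` such that the random primes of `(x, x + k]` are exactly the
integers without prime factors `≤ k`. -/

namespace Pool.Agent.Results.MP_cbf366_nt.SievedRandomPrimes

open Finset Filter MeasureTheory ProbabilityTheory

open scoped Classical in
/-- the probability that `n` is a random prime -/
noncomputable def prob (A : ℝ) (n : ℕ) : ℝ :=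
  if ∀ p : ℕ, p.Prime → (p : ℝ) ≤ A * Real.log n → ¬ p ∣ n then
    min 1 ((∏ p ∈ (Icc 1 ⌊A * Real.log n⌋₊).filter Nat.Prime, (1 - (p : ℝ)⁻¹)⁻¹) / Real.log n) else 0

/-- the events `S n` (`n` is a random prime) are independent with the probabilities `prob A n` -/
def Model (A : ℝ) {Ω : Type*} [MeasurableSpace Ω] (μ : Measure Ω) (S : ℕ → Set Ω) : Prop :=
  IsProbabilityMeasure μ ∧ (∀ n, MeasurableSet (S n)) ∧ iIndepSet S μ ∧
    ∀ n, μ (S n) = ENNReal.ofReal (prob A n)

open scoped Classical in
/-- the number of the random primes in `(x, x + k]` -/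
noncomputable def randomPrimesIn {Ω : Type*} (S : ℕ → Set Ω) (ω : Ω) (x k : ℕ) : ℕ :=
  ((Finset.Ioc x (x + k)).filter (fun n => ω ∈ S n)).card

/-- the sieve count: the number of the integers in `(m, m + k]` without prime factors `≤ k` -/
def sieveCount (m k : ℕ) : ℕ := ((Finset.Ioc m (m + k)).filter (fun x => Nat.Coprime x (primorial k))).card

theorem result (A : ℝ) (hA : 0 < A) :
    -- the model exists
    (∃ (μ : Measure (ℕ → Bool)) (S : ℕ → Set (ℕ → Bool)), Model A μ S) ∧
    ∀ (Ω : Type) [MeasurableSpace Ω] (μ : Measure Ω) (S : ℕ → Set Ω), Model A μ S →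
      ∀ᵐ ω ∂μ,
        -- the conjecture
        (∀ k : ℕ, ∃ H : ℕ, (∃ m : ℕ, sieveCount m k = H) ∧ (∀ m : ℕ, sieveCount m k ≤ H) ∧
          (∃ᶠ x in atTop, randomPrimesIn S ω x k = H) ∧ ∀ᶠ x in atTop, randomPrimesIn S ω x k ≤ H) ∧
        -- all sieve patterns occur in all short intervals
        ∀ k m : ℕ, ∀ ε : ℝ, 0 < ε → ∀ᶠ N : ℕ in atTop, ∃ x ∈ Ioc N (N + ⌊(N : ℝ) ^ ε⌋₊), x ≡ m [MOD primorial k] ∧
          ∀ h, 1 ≤ h → h ≤ k → (ω ∈ S (x + h) ↔ Nat.Coprime (x + h) (primorial k)) := by
  classical
  have hprob : ∀ n, prob A n = Pool.Agent.T2H53.GW.pr A n := fun n => rfl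
  refine ⟨?_, ?_⟩
  · obtain ⟨μ, S, h1, h2, h3, h4⟩ := Pool.Agent.T2H53.GW.exists_model (prob A)
      (fun n => by rw [hprob]; exact Pool.Agent.T2H53.GW.pr_nonneg A n)
      (fun n => by rw [hprob]; exact Pool.Agent.T2H53.GW.pr_le_one A n)
    exact ⟨μ, S, h1, h2, h3, h4⟩
  · rintro Ω _ μ S ⟨hμ, hm, hi, hp⟩
    filter_upwards [Pool.Agent.T2H62.MD.sieve_short A hA hm hi hp] with ω hω
    obtain ⟨h1, h2⟩ := hω
    refine ⟨fun k => ?_, h2⟩
    obtain ⟨H, a1, a2, a3, a4⟩ := Pool.Agent.T2H62.MD.hl_windows (R := {n | ω ∈ S n}) hA h1 h2 k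
    refine ⟨H, a1, a2, ?_, ?_⟩
    · refine a3.mono fun x hx => ?_
      unfold randomPrimesIn
      rw [← hx]
      congr 1
    · refine a4.mono fun x hx => ?_
      unfold randomPrimesIn
      refine le_trans (le_of_eq ?_) hx
      congr 1

end Pool.Agent.Results.MP_cbf366_nt.SievedRandomPrimes
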