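import Mathlib
import Pool.Agent.T2H62.ML.Y

set_option autoImplicit false

/-! # The maxima of the numbers of sieved random primes in all windows, uniformly in the length

Random primes: every integer `n` without a prime factor `p ≤ A log n` is chosen with probability
`∏_{p ≤ A log n} (1 - 1/p)⁻¹ / log n` (at most `1`), the other integers are not chosen, and the choices are independent
(`A = 1`: Granville's modification of Cramer's model). Let `h(k)` be the maximum of the sieve counts `h_m(k)`. Almost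
surely, uniformly for all lengths `k ≤ A log N`, the largest number of random primes in a window `(x, x + k]`,
`N < x ≤ 2 N`, is `min (h(k)) ((1 + o(1)) log N / log log N)`, and it is exactly `h(k)` as long as
`h(k) ≤ (1 - ε) log N / log log N`. All admissible sets of at most `(1 - ε) log N / log log N` elements and diameter up to
`(log N / log log N) ^ 2` are realised exactly, and no window of length `O(log x)` has more than
`(1 + ε) log x / log log x` random primes. -/

namespace Pool.Agent.Results.MP_cbf366_nt.UniformWindows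

open Finset Filter MeasureTheory ProbabilityTheory

open scoped Classical in
/-- the probability that `n` is a random prime -/
noncomputable def prob (A : ℝ) (n : ℕ) : ℝ :=
  if ∀ p : ℕ, p.Prime → (p : ℝ) ≤ A * Real.log n → ¬ p ∣ n then
    min 1 ((∏ p ∈ (Icc 1 ⌊A * Real.log n⌋₊).filter Nat.Prime, (1 - (p : ℝ)⁻¹)⁻¹) / Real.log n) else 0

/-- the events `S n` (`n` is a random prime) are independent with the probabilities `prob A n` -/
def Model (A : ℝ) {Ω : Type*} [MeasurableSpace Ω] (μ : Measure Ω) (S : ℕ → Set Ω) : Prop :=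
  IsProbabilityMeasure μ ∧ (∀ n, MeasurableSet (S n)) ∧ iIndepSet S μ ∧
    ∀ n, μ (S n) = ENNReal.ofReal (prob A n)

open scoped Classical in
/-- the number of the random primes in `(x, x + k]` -/
noncomputable def randomPrimesIn {Ω : Type*} (S : ℕ → Set Ω) (ω : Ω) (x k : ℕ) : ℕ :=
  ((Finset.Ioc x (x + k)).filter (fun n => ω ∈ S n)).card

/-- the sieve count: the number of the integers in `(m, m + k]` without prime factors `≤ k` -/
def sieveCount (m k : ℕ) : ℕ := ((Finset.Ioc m (m + k)).filter (fun x => Nat.Coprime x (primorial k))).card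

/-- `T` is admissible: for every prime `p` some translate of `T` has no multiple of `p` -/
def Admissible (T : Finset ℕ) : Prop := ∀ p : ℕ, p.Prime → ∃ r : ℕ, ∀ t ∈ T, ¬ p ∣ r + t

theorem shift_card {P : ℕ → Prop} [DecidablePred P] (x k : ℕ) :
    ((Finset.Ioc x (x + k)).filter P).card = ((Icc 1 k).filter (fun h => P (x + h))).card := by
  symm
  apply card_bij' (i := fun h _ => x + h) (j := fun n _ => n - x)
  · intro h hh
    rw [mem_filter, mem_Icc] at hh
    rw [mem_filter, mem_Ioc]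
    exact ⟨by omega, hh.2⟩
  · intro n hn
    rw [mem_filter, mem_Ioc] at hn
    rw [mem_filter, mem_Icc]
    refine ⟨by omega, ?_⟩
    have : x + (n - x) = n := by omega
    rw [this]
    exact hn.2
  · intro h hh
    rw [mem_filter, mem_Icc] at hh
    show x + h - x = h
    omega
  · intro n hn
    rw [mem_filter, mem_Ioc] at hn
    show x + (n - x) = n
    omega

theorem result (A : ℝ) (hA : 0 < A) :
    -- the model exists
    (∃ (μ : Measure (ℕ → Bool)) (S : ℕ → Set (ℕ → Bool)), Model A μ S) ∧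
    ∀ (Ω : Type) [MeasurableSpace Ω] (μ : Measure Ω) (S : ℕ → Set Ω), Model A μ S →
      ∀ᵐ ω ∂μ, ∀ ε : ℝ, 0 < ε →
        -- all admissible patterns
        (∀ᶠ N : ℕ in atTop, ∀ (k : ℕ) (T : Finset ℕ), T ⊆ Icc 1 k → Admissible T →
          (k : ℝ) * Real.log (Real.log N) ^ 2 ≤ Real.log N ^ 2 →
          (T.card : ℝ) * Real.log (Real.log N) ≤ (1 - ε) * Real.log N →
          ∃ x ∈ Ioc N (2 * N), ∀ h ∈ Icc 1 k, (ω ∈ S (x + h) ↔ h ∈ T)) ∧
        -- the upper bound
        (∀ M : ℝ, ∀ᶠ x : ℕ in atTop, ∀ k : ℕ, (k : ℝ) ≤ M * Real.log x →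
          (randomPrimesIn S ω x k : ℝ) * Real.log (Real.log x) ≤ (1 + ε) * Real.log x) ∧
        -- the maximum for the windows of length `k`
        ∀ᶠ N : ℕ in atTop, ∀ k h m : ℕ, (k : ℝ) ≤ A * Real.log N →
          IsGreatest (Set.range (fun m => sieveCount m k)) h →
          IsGreatest ((fun x => randomPrimesIn S ω x k) '' Set.Ioc N (2 * N)) m →
          m ≤ h ∧ (m : ℝ) * Real.log (Real.log N) ≤ (1 + ε) * Real.log N ∧
          ((h : ℝ) * Real.log (Real.log N) ≤ (1 - ε) * Real.log N → m = h) ∧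
          ((1 - ε) * Real.log N ≤ (h : ℝ) * Real.log (Real.log N) →
            (1 - 2 * ε) * Real.log N ≤ (m : ℝ) * Real.log (Real.log N)) := by
  classical
  have hprob : ∀ n, prob A n = Pool.Agent.T2H53.GW.pr A n := fun n => rfl
  refine ⟨?_, ?_⟩
  · obtain ⟨μ, S, h1, h2, h3, h4⟩ := Pool.Agent.T2H53.GW.exists_model (prob A)
      (fun n => by rw [hprob]; exact Pool.Agent.T2H53.GW.pr_nonneg A n)
      (fun n => by rw [hprob]; exact Pool.Agent.T2H53.GW.pr_le_one A n)
    exact ⟨μ, S, h1, h2, h3, h4⟩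
  · rintro Ω _ μ S ⟨hμ, hm, hi, hp⟩
    have hpr : ∀ n, μ.real (S n) = Pool.Agent.T2H53.GW.pr A n := by
      intro n
      rw [Measure.real, hp n, hprob n]
      exact ENNReal.toReal_ofReal (Pool.Agent.T2H53.GW.pr_nonneg A n)
    have hTn : Tendsto (fun n : ℕ => (n : ℝ)) atTop atTop := tendsto_natCast_atTop_atTop
    have hL : Tendsto (fun n : ℕ => Real.log (n : ℝ)) atTop atTop := Real.tendsto_log_atTop.comp hTn
    have hL2 : Tendsto (fun n : ℕ => Real.log (Real.log (n : ℝ))) atTop atTop := Real.tendsto_log_atTop.comp hL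
    filter_upwards [Pool.Agent.T2H62.ML.patterns_all A hA hm hi hpr, Pool.Agent.T2H62.ML.upper_all A hA hm hi hpr,
      Pool.Agent.T2H62.MD.ae_none (μ := μ) (S := S) (fun n hn => by
        rw [Measure.real, ENNReal.toReal_eq_zero_iff] at hn
        rcases hn with hn | hn
        · exact hn
        · exact absurd hn (measure_ne_top μ _))] with ω hω1 hω2 hω3 ε hε
    have hcard : ∀ x k : ℕ, randomPrimesIn S ω x k = ((Icc 1 k).filter (fun h => ω ∈ S (x + h))).card := by
      intro x k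
      unfold randomPrimesIn
      exact shift_card (P := fun n => ω ∈ S n) x k
    have hscard : ∀ m k : ℕ, sieveCount m k = ((Icc 1 k).filter (fun h => Nat.Coprime (m + h) (primorial k))).card := by
      intro m k
      unfold sieveCount
      exact shift_card (P := fun n => Nat.Coprime n (primorial k)) m k
    have hup : ∀ e : ℝ, 0 < e → ∀ M : ℝ, ∀ᶠ x : ℕ in atTop, ∀ k : ℕ, (k : ℝ) ≤ M * Real.log x →
          (randomPrimesIn S ω x k : ℝ) * Real.log (Real.log x) ≤ (1 + e) * Real.log x := by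
      intro e he M
      filter_upwards [hω2 e he M] with x hx k hk
      rw [hcard]
      refine hx _ (fun u hu => ?_) (fun u hu => (mem_filter.1 hu).2)
      have h1 := mem_Icc.1 (mem_filter.1 hu).1
      have h2 : (u : ℝ) ≤ k := by exact_mod_cast h1.2
      exact ⟨h1.1, h2.trans hk⟩
    refine ⟨hω1 ε hε, hup ε hε, ?_⟩
    -- the maximum
    have g1 : ∀ᶠ N : ℕ in atTop, A * Real.log (Real.log N) ^ 2 ≤ Real.log N := by
      have h1 : ∀ᶠ y : ℝ in atTop, A * Real.log y ^ 2 ≤ y := by
        have h2 := (Real.isLittleO_pow_log_id_atTop (n := 2)).bound (show (0 : ℝ) < 1 / A by positivity)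
        filter_upwards [h2, eventually_ge_atTop 1] with y hy hy1
        rw [Real.norm_eq_abs, Real.norm_eq_abs, abs_of_nonneg (by positivity), id, abs_of_nonneg (by linarith)] at hy
        calc A * Real.log y ^ 2 ≤ A * (1 / A * y) := mul_le_mul_of_nonneg_left hy hA.le
          _ = y := by field_simp
      exact hL.eventually h1
    obtain ⟨X₁, hX₁⟩ := eventually_atTop.1 (hup (ε / 2) (by positivity) A)
    have g2 : ∀ᶠ N : ℕ in atTop, Real.log (Real.log N) ≤ ε / 2 * Real.log N := by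
      have h1 : ∀ᶠ y : ℝ in atTop, Real.log y ≤ ε / 2 * y := by
        have h2 := Real.isLittleO_log_id_atTop.bound (show (0 : ℝ) < ε / 2 by positivity)
        filter_upwards [h2, eventually_ge_atTop 1] with y hy hy1
        rw [Real.norm_eq_abs, Real.norm_eq_abs, id, abs_of_nonneg (by linarith : (0 : ℝ) ≤ y)] at hy
        exact (le_abs_self _).trans hy
      exact hL.eventually h1
    filter_upwards [hω1 ε hε, hω1 (3 / 2 * ε) (by positivity), g1, g2, eventually_ge_atTop X₁, eventually_ge_atTop 3,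
      hL.eventually (eventually_ge_atTop ((1 + ε / 2) * 2 / ε)), hL2.eventually (eventually_ge_atTop 1),
      hL.eventually (eventually_ge_atTop 1)] with N f1 f2 f3 f4 f5 f6 f7 f8 f9 k h m hk hh hmm
    obtain ⟨ℓ, hℓ⟩ : ∃ ℓ : ℝ, ℓ = Real.log N := ⟨_, rfl⟩
    obtain ⟨ℓ₂, hℓ₂⟩ : ∃ ℓ₂ : ℝ, ℓ₂ = Real.log (Real.log N) := ⟨_, rfl⟩
    rw [← hℓ₂, ← hℓ] at f1 f2 f3 f4 ⊢
    rw [← hℓ] at f7 f9 hk
    rw [← hℓ₂] at f8
    have hN0 : (0 : ℝ) < N := by exact_mod_cast (by omega : 0 < N)
    have hkk : (k : ℝ) * ℓ₂ ^ 2 ≤ ℓ ^ 2 := by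
      calc (k : ℝ) * ℓ₂ ^ 2 ≤ A * ℓ * ℓ₂ ^ 2 := mul_le_mul_of_nonneg_right hk (by positivity)
        _ = (A * ℓ₂ ^ 2) * ℓ := by ring
        _ ≤ ℓ * ℓ := mul_le_mul_of_nonneg_right f3 (by linarith)
        _ = ℓ ^ 2 := by ring
    obtain ⟨⟨m₀, hm₀⟩, hmax⟩ := hh
    obtain ⟨⟨x₀, hx₀, hx₀m⟩, hmmax⟩ := hmm
    simp only at hm₀ hx₀m
    obtain ⟨T, hT⟩ : ∃ T : Finset ℕ, T = (Icc 1 k).filter (fun h => Nat.Coprime (m₀ + h) (primorial k)) := ⟨_, rfl⟩
    have hTadm : Pool.Agent.T2H62.ML.AdmP T := by rw [hT]; exact Pool.Agent.T2H62.ML.sieve_adm m₀ k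
    have hTk : T ⊆ Icc 1 k := by rw [hT]; exact filter_subset _ _
    have hTc : T.card = h := by rw [hT, ← hscard, hm₀]
    have hle : ∀ x ∈ Set.Ioc N (2 * N), randomPrimesIn S ω x k ≤ h := by
      intro x hx
      refine le_trans ?_ (hmax ⟨x, rfl⟩)
      simp only
      unfold randomPrimesIn sieveCount
      apply card_le_card
      intro n hn
      rw [mem_filter] at hn ⊢
      refine ⟨hn.1, ?_⟩
      have h1 := mem_Ioc.1 hn.1
      have h2 : Pool.Agent.T2H53.GW.pr A n ≠ 0 := fun h => hω3 n (by rw [hpr]; exact h) hn.2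
      have h3 : ∀ p : ℕ, p.Prime → (p : ℝ) ≤ A * Real.log n → ¬ p ∣ n := by
        by_contra h4
        apply h2
        unfold Pool.Agent.T2H53.GW.pr
        rw [if_neg h4]
      rw [Nat.coprime_iff_gcd_eq_one]
      by_contra h4
      obtain ⟨p, hpp, hpd⟩ := Nat.exists_prime_and_dvd h4
      have h5 : p ≤ k := (Nat.Prime.dvd_primorial_iff hpp).1 (hpd.trans (Nat.gcd_dvd_right _ _))
      refine h3 p hpp ?_ (hpd.trans (Nat.gcd_dvd_left _ _))
      have h6 : (p : ℝ) ≤ k := by exact_mod_cast h5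
      have h7 : ℓ ≤ Real.log n := by
        rw [hℓ]
        apply Real.log_le_log hN0
        have := hx.1
        exact_mod_cast (by omega : N ≤ n)
      exact h6.trans (hk.trans (mul_le_mul_of_nonneg_left h7 hA.le))
    have hmh : m ≤ h := by rw [← hx₀m]; exact hle x₀ hx₀
    have hreal : ∀ U : Finset ℕ, U ⊆ Icc 1 k → (∃ x ∈ Ioc N (2 * N), ∀ h ∈ Icc 1 k, (ω ∈ S (x + h) ↔ h ∈ U)) → U.card ≤ m := by
      intro U hU hx
      obtain ⟨x, hx, hxU⟩ := hx
      apply hmmax
      refine ⟨x, by simpa using hx, ?_⟩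
      simp only
      rw [hcard]
      congr 1
      ext j
      rw [mem_filter]
      constructor
      · rintro ⟨a1, a2⟩
        exact (hxU j a1).1 a2
      · intro a1
        exact ⟨hU a1, (hxU j (hU a1)).2 a1⟩
    refine ⟨hmh, ?_, ?_, ?_⟩
    · -- the upper bound
      have hx1 : N ≤ x₀ := hx₀.1.le
      have hx1' : (N : ℝ) ≤ x₀ := by exact_mod_cast hx1
      have hx2' : (x₀ : ℝ) ≤ 2 * N := by exact_mod_cast hx₀.2
      have b1 : ℓ ≤ Real.log x₀ := by rw [hℓ]; exact Real.log_le_log hN0 hx1'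
      have b2 : ℓ₂ ≤ Real.log (Real.log x₀) := by
        rw [hℓ₂]
        apply Real.log_le_log
        · rw [← hℓ]; linarith
        · rw [← hℓ]; exact b1
      have b3 : Real.log x₀ ≤ ℓ + 1 := by
        have h1 := Real.log_le_log (by linarith : (0 : ℝ) < x₀) hx2'
        rw [Real.log_mul (by norm_num) hN0.ne', ← hℓ] at h1
        have := Real.log_two_lt_d9
        linarith
      have b4 := hX₁ x₀ (by omega) k (hk.trans (mul_le_mul_of_nonneg_left b1 hA.le))
      rw [hx₀m] at b4
      rw [div_le_iff₀ hε] at f7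
      calc (m : ℝ) * ℓ₂ ≤ (m : ℝ) * Real.log (Real.log x₀) := mul_le_mul_of_nonneg_left b2 (Nat.cast_nonneg _)
        _ ≤ (1 + ε / 2) * Real.log x₀ := b4
        _ ≤ (1 + ε / 2) * (ℓ + 1) := mul_le_mul_of_nonneg_left b3 (by positivity)
        _ ≤ (1 + ε) * ℓ := by nlinarith
    · -- small lengths
      intro hc
      apply le_antisymm hmh
      rw [← hTc]
      exact hreal T hTk (f1 k T hTk hTadm hkk (by rw [hTc]; exact hc))
    · -- large lengths
      intro hc
      rcases le_or_gt (1 - 2 * ε) 0 with he | he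
      · have h1 : (1 - 2 * ε) * ℓ ≤ 0 := mul_nonpos_of_nonpos_of_nonneg he (by linarith)
        have h2 : 0 ≤ (m : ℝ) * ℓ₂ := mul_nonneg (Nat.cast_nonneg _) (by linarith)
        linarith
      · obtain ⟨j, hj⟩ : ∃ j : ℕ, j = ⌊(1 - 3 / 2 * ε) * ℓ / ℓ₂⌋₊ := ⟨_, rfl⟩
        have hl2 : 0 < ℓ₂ := by linarith
        have hj0 : 0 ≤ (1 - 3 / 2 * ε) * ℓ / ℓ₂ := div_nonneg (mul_nonneg (by linarith) (by linarith)) hl2.le
        have hj1 : (j : ℝ) * ℓ₂ ≤ (1 - 3 / 2 * ε) * ℓ := by
          rw [← le_div_iff₀ hl2, hj]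
          exact Nat.floor_le hj0
        have hj2 : (1 - 2 * ε) * ℓ ≤ (j : ℝ) * ℓ₂ := by
          have h1 := Nat.lt_floor_add_one ((1 - 3 / 2 * ε) * ℓ / ℓ₂)
          rw [← hj, div_lt_iff₀ hl2] at h1
          nlinarith
        have hjh : j ≤ T.card := by
          rw [hTc]
          have h1 : (j : ℝ) * ℓ₂ ≤ (h : ℝ) * ℓ₂ := hj1.trans (le_trans (by nlinarith) hc)
          exact_mod_cast le_of_mul_le_mul_right h1 hl2
        obtain ⟨T', hT', hT'c⟩ := exists_subset_card_eq hjh
        have h2 := hreal T' (hT'.trans hTk) (f2 k T' (hT'.trans hTk) (Pool.Agent.T2H62.ML.AdmP.mono hT' hTadm) hkk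
          (by rw [hT'c]; exact hj1))
        rw [hT'c] at h2
        refine hj2.trans (mul_le_mul_of_nonneg_right (by exact_mod_cast h2) hl2.le)

end Pool.Agent.Results.MP_cbf366_nt.UniformWindows
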